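import Pool.Agent.E8helper57.JN.Bound

/-!
# MP_b57267_co: exceptional pairs have rational `p` and at least 50 vertices

If the centred statistics of the path with two edges, of the triangle and of two disjoint edges
vanish for `(F, p)`, in particular if `(F, p)` is exceptional, then `p` is rational, `F` has at least
50 vertices, and the number of edges satisfies two arithmetic conditions.
-/

set_option autoImplicit false

open Finset Classical

namespace Pool.Agent.Results.MP_b57267_co.RationalFiftyH57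

open Pool.Agent.E8helper57.JN

theorem result :
    -- (1) exceptional pairs
    (∀ (v : ℕ) (F : SimpleGraph (Fin v)) (p : ℝ), Exceptional F p →
      (∃ q : ℚ, p = q) ∧ 50 ≤ v ∧ Concl F p) ∧
    -- (2) no graph is exceptional for an irrational number
    (∀ p : ℝ, Irrational p → ¬ ∃ (v : ℕ) (F : SimpleGraph (Fin v)), Exceptional F p) ∧
    -- (3) only three of the graphs are needed
    (∀ (v : ℕ) (F : SimpleGraph (Fin v)) (p : ℝ), 3 ≤ v → 0 < p → p < 1 →
      Sm F p 3 P3 = 0 → Sm F p 3 ⊤ = 0 → Sm F p 4 M2 = 0 →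
      (∃ q : ℚ, p = q) ∧ 50 ≤ v ∧ Concl F p) := by
  have three : ∀ (v : ℕ) (F : SimpleGraph (Fin v)) (p : ℝ), 3 ≤ v → 0 < p → p < 1 →
      Sm F p 3 P3 = 0 → Sm F p 3 ⊤ = 0 → Sm F p 4 M2 = 0 →
      (∃ q : ℚ, p = q) ∧ 50 ≤ v ∧ Concl F p := by
    intro v F p hv h0 h1 h2 h3 h4
    have := concl F p hv h0 h1 h2 h4 h3
    exact ⟨this.1, fifty F p hv h0 h1 h2 h4 h3, this⟩
  have exc : ∀ (v : ℕ) (F : SimpleGraph (Fin v)) (p : ℝ), Exceptional F p →
      (∃ q : ℚ, p = q) ∧ 50 ≤ v ∧ Concl F p := by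
    intro v F p h
    obtain ⟨h1, h2, h3⟩ := exceptional_sums F p h
    exact three v F p h.1 h.2.1 h.2.2.1 h1 h3 h2
  refine ⟨exc, ?_, three⟩
  rintro p hp ⟨v, F, h⟩
  obtain ⟨⟨q, hq⟩, -⟩ := exc v F p h
  exact hp ⟨q, hq.symm⟩

end Pool.Agent.Results.MP_b57267_co.RationalFiftyH57
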